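import Pool.Agent.H98.PW.Stmts

/-!
# PW: row PRM (the ideal of a generic family is prime)
-/

set_option autoImplicit false

namespace Pool.PW

open Finset Filter MvPolynomial

theorem prm_thm (hD : S_DIC) : S_PRM := by
  classical
  intro U X n T hX hG
  constructor
  · intro F H hFH
    rcases hD U X n T (fun m => (T m).filter fun x => ev m x F = 0)
      (fun m => (T m).filter fun x => ev m x F ≠ 0) hX hG.1 (fun m x hx => by
        by_cases h : ev m x F = 0
        · exact mem_union_left _ (mem_filter.mpr ⟨hx, h⟩)
        · exact mem_union_right _ (mem_filter.mpr ⟨hx, h⟩)) with h1 | h2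
    · left
      exact hG.2 _ (fun m => filter_subset _ _) h1 F
        (Eventually.of_forall fun m x hx => (mem_filter.mp hx).2)
    · right
      refine hG.2 _ (fun m => filter_subset _ _) h2 H ?_
      filter_upwards [hFH] with m hm x hx
      have h3 := hm x (mem_filter.mp hx).1
      have h4 := (mem_filter.mp hx).2
      have e : ev m x (F * H) = ev m x F * ev m x H := by
        unfold ev lv
        rw [map_mul, map_mul]
      rw [e] at h3
      exact (mul_eq_zero.mp h3).resolve_left h4
  · intro F T' hF hT' hL
    rcases hD U X n T' (fun m => (T' m).filter fun x => ev m x F = 0)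
      (fun m => (T' m).filter fun x => ev m x F ≠ 0) hX hL (fun m x hx => by
        by_cases h : ev m x F = 0
        · exact mem_union_left _ (mem_filter.mpr ⟨hx, h⟩)
        · exact mem_union_right _ (mem_filter.mpr ⟨hx, h⟩)) with h1 | h2
    · exact absurd (hG.2 _ (fun m => (filter_subset _ _).trans (hT' m)) h1 F
        (Eventually.of_forall fun m x hx => (mem_filter.mp hx).2)) hF
    · exact ⟨_, fun m => filter_subset _ _, h2, fun m x hx => (mem_filter.mp hx).2⟩

end Pool.PW
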