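import Pool.Agent.H98.PW.Stmts

/-!
# PW: row SCL (common denominator)
-/

set_option autoImplicit false

namespace Pool.PW

open Finset Filter MvPolynomial

namespace H8

theorem lam_apply {U : Ultrafilter ℕ} {X : ℕ → ℝ} (m : ℕ) (a : Modr U X) :
    lam m a = (a : ℕ → ℚ) m := rfl

theorem one_le_mm (X : ℕ → ℝ) (m : ℕ) : 1 ≤ mm X m := by
  unfold mm
  linarith [abs_nonneg (X m)]

/-- moderate sequences of integers -/
theorem mem_int {U : Ultrafilter ℕ} {X : ℕ → ℝ} (C : ℕ) (w : ℕ → ℤ)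
    (hw : ∀ᶠ m in (U : Filter ℕ), |(w m : ℝ)| ≤ mm X m ^ C) :
    (fun m => (w m : ℚ)) ∈ Modr U X := by
  refine ⟨C, w, fun _ => 1, ?_⟩
  filter_upwards [hw] with m hm
  refine ⟨one_ne_zero, by simp, hm, ?_⟩
  simpa using one_le_pow₀ (one_le_mm X m)

theorem scl_aux (U : Ultrafilter ℕ) (X : ℕ → ℝ) (n : ℕ) (F : RP U X n) :
    ∃ (a : Modr U X) (w : ℕ → ℤ) (g : ℕ → MvPolynomial (Fin n) ℤ), ∀ᶠ m in (U : Filter ℕ),
      w m ≠ 0 ∧ lam m a = (w m : ℚ) ∧ lv m (C a * F) = map (Int.castRingHom ℚ) (g m) := by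
  induction F using MvPolynomial.induction_on with
  | C c =>
    obtain ⟨C', u, v, h⟩ := id c.2
    have hv : (fun m => (v m : ℚ)) ∈ Modr U X := by
      apply mem_int C'
      filter_upwards [h] with m hm using hm.2.2.2
    refine ⟨⟨_, hv⟩, v, fun m => C (u m), ?_⟩
    filter_upwards [h] with m hm
    refine ⟨hm.1, rfl, ?_⟩
    unfold lv
    rw [map_mul, map_C, map_C, map_C, ← C_mul]
    congr 1
    rw [lam_apply, lam_apply]
    change (v m : ℚ) * (c : ℕ → ℚ) m = ((u m : ℤ) : ℚ)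
    rw [mul_comm]
    exact hm.2.1
  | add p q hp hq =>
    obtain ⟨a, w, g, h⟩ := hp
    obtain ⟨a', w', g', h'⟩ := hq
    refine ⟨a * a', fun m => w m * w' m, fun m => C (w' m) * g m + C (w m) * g' m, ?_⟩
    filter_upwards [h, h'] with m hm hm'
    refine ⟨mul_ne_zero hm.1 hm'.1, ?_, ?_⟩
    · rw [map_mul, hm.2.1, hm'.2.1]
      push_cast
      ring
    · have e : lv m (C (a * a') * (p + q)) =
          lv m (C a') * lv m (C a * p) + lv m (C a) * lv m (C a' * q) := by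
        unfold lv
        rw [← map_mul, ← map_mul, ← map_add]
        congr 1
        rw [C_mul]
        ring
      rw [e, hm.2.2, hm'.2.2, map_add, map_mul, map_mul]
      unfold lv
      rw [map_C, map_C, map_C, map_C, hm.2.1, hm'.2.1]
      rfl
  | mul_X p i hp =>
    obtain ⟨a, w, g, h⟩ := hp
    refine ⟨a, w, fun m => g m * MvPolynomial.X i, ?_⟩
    filter_upwards [h] with m hm
    refine ⟨hm.1, hm.2.1, ?_⟩
    rw [map_mul, ← hm.2.2, map_X, ← mul_assoc]
    unfold lv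
    rw [map_mul _ (C a * p), map_X]

end H8

theorem scl_thm : S_SCL := by
  intro U X n F
  obtain ⟨a, w, g, h⟩ := H8.scl_aux U X n F
  refine ⟨a, g, ?_⟩
  filter_upwards [h] with m hm
  refine ⟨?_, hm.2.2⟩
  rw [hm.2.1]
  exact_mod_cast hm.1

end Pool.PW
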